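import Pool.Agent.X183.PC.Main
import Pool.Agent.X183.PC.Circ3

/-!
# Periodic closed curves of `Ω`-stable diffeomorphisms contain periodic points
-/

set_option autoImplicit false
set_option linter.unusedSectionVars false

open scoped Manifold ContDiff Topology
open Filter Set Metric

universe u

namespace Pool.Agent.X183.PC

open Pool.Agent.H718R2.G Pool.Agent.TH290.CL Pool.Agent.TH80.CLX Pool.Agent.TH80.OMS
open Pool.Agent.Y504.CO (Rec)

variable {n : ℕ} {N : Type u} [TopologicalSpace N] [T2Space N] [CompactSpace N]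
  [ChartedSpace (V n) N] [IsManifold (𝓡 n) ∞ N]

/-- **A smooth closed curve which is periodic under an `Ω`-stable diffeomorphism contains a periodic
point.** -/
theorem curve_per {r : ℕ∞} (hr : 1 ≤ r) {F : DiffM n N r} (hF : OmegaStable n N r F) {C : Set N}
    (hC : IsClosedCurve n N C) (hP : IsPerSet F C) : (C ∩ Per F).Nonempty := by
  obtain ⟨ψ, hψ, x₀, ⟨T₀, hT₀, hT₀x⟩, hn, hCe⟩ := hC
  obtain ⟨m, hm, hCm, hdis⟩ := hP
  by_contra hcon
  have hz : Disjoint C (Per F) := by
    rw [Set.disjoint_iff_inter_eq_empty]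
    exact Set.not_nonempty_iff_eq_empty.1 hcon
  obtain ⟨T, hT, he⟩ := exists_period (orb_cont hψ) hψ.zero hψ.add hT₀.ne' hT₀x hn
  have hec : Continuous fun t => ψ t x₀ := orb_cont hψ x₀
  have hFc : ∀ i : ℕ, Continuous (F^[i]) := fun i => F.continuous.iterate i
  have heC : ∀ t, ψ t x₀ ∈ C := fun t => by
    rw [hCe]
    exact ⟨t, rfl⟩
  have hFi : ∀ i : ℕ, Function.Injective (F^[i]) := fun i => F.injective.iterate i
  obtain ⟨g, hgc, hg, hmono⟩ := exists_mono_lift (e := fun t => ψ t x₀) hec hT he (hFc m)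
    (fun s => by
      have h1 := hCm _ (heC s)
      rw [hCe] at h1
      obtain ⟨t, ht⟩ := h1
      exact ⟨t, ht.symm⟩) (fun s t h => hFi m h)
  have hgq : ∀ (q : ℕ) (t : ℝ), F^[m * q] (ψ t x₀) = ψ (g^[q] t) x₀ := by
    intro q
    induction q with
    | zero => intro t; rfl
    | succ q ih =>
      intro t
      rw [Nat.mul_succ, Function.iterate_add_apply, hg, ih, Function.iterate_succ_apply]
  have hno : ∀ q : ℕ, 1 ≤ q → ∀ (p : ℤ) (t : ℝ), g^[q] t ≠ t + p * T := by
    intro q hq p t h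
    refine Set.disjoint_left.1 hz (heC t) ⟨m * q, Nat.mul_pos hm hq, ?_⟩
    rw [hgq, h]
    exact (he _ _).2 ⟨p, by ring⟩
  rcases hmono with ⟨hmon, hgT⟩ | ⟨hanti, hgT⟩
  · -- the cut-off function
    obtain ⟨C0, hC0⟩ : ∃ C0 : Set N, C0 = ⋃ i ∈ Finset.Ico 1 m, F^[i] '' C := ⟨_, rfl⟩
    have hCc : IsCompact C := by
      have h1 : C = (fun t => ψ t x₀) '' Icc 0 T := by
        rw [hCe]
        ext y
        constructor
        · rintro ⟨t, rfl⟩
          refine ⟨t - ⌊t / T⌋ * T, ⟨?_, ?_⟩, ?_⟩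
          · have := Int.floor_le (t / T)
            rw [le_div_iff₀ hT] at this
            linarith
          · have := Int.lt_floor_add_one (t / T)
            rw [div_lt_iff₀ hT] at this
            linarith
          · exact (he _ _).2 ⟨-⌊t / T⌋, by push_cast; ring⟩
        · rintro ⟨t, -, rfl⟩
          exact ⟨t, rfl⟩
      rw [h1]
      exact isCompact_Icc.image hec
    have hC0c : IsClosed C0 := by
      rw [hC0]
      exact isClosed_biUnion_finset fun i _ => (hCc.image (hFc i)).isClosed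
    have hdisj : Disjoint C0 C := by
      rw [hC0, Set.disjoint_left]
      intro y hy1 hy2
      simp only [mem_iUnion, Finset.mem_Ico] at hy1
      obtain ⟨i, ⟨hi1, hi2⟩, hy⟩ := hy1
      exact Set.disjoint_left.1 (hdis i hi1 hi2) hy hy2
    obtain ⟨f, hf0, hf1, -⟩ := exists_contMDiffMap_zero_one_of_isClosed (n := ⊤) (𝓡 n) hC0c
      hCc.isClosed hdisj
    have hρ : ContMDiff (𝓡 n) 𝓘(ℝ, ℝ) ∞ (f : N → ℝ) := f.contMDiff
    obtain ⟨U, hU, hFU, hconj⟩ := id hF
    obtain ⟨κ, hκ, hpert⟩ := perturb hr F hψ hρ x₀ U hU hFU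
    obtain ⟨ε, hε, q, hq, p, s₁, hs₁, hsemi⟩ := semistable_free hT hmon hgT hgc hno hκ
    obtain ⟨G, hGU, hG⟩ := hpert ε hε
    have h1 : ∀ (s : ℝ) (i : ℕ), 1 ≤ i → i ≤ m → G^[i] (ψ s x₀) = F^[i] (ψ (s + ε) x₀) := by
      intro s i hi
      induction i with
      | zero => omega
      | succ i ih =>
        intro him
        rcases Nat.eq_zero_or_pos i with h0 | h0
        · subst h0
          have h2 : f (ψ s x₀) = 1 := hf1 (heC s)
          show G (ψ s x₀) = F (ψ (s + ε) x₀)
          rw [hG, h2, one_mul, ← hψ.add, add_comm]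
        · rw [Function.iterate_succ_apply', ih h0 (by omega), hG,
            Function.iterate_succ_apply' F]
          have h2 : f (F^[i] (ψ (s + ε) x₀)) = 0 := hf0 (by
            rw [hC0]
            simp only [mem_iUnion, Finset.mem_Ico]
            exact ⟨i, ⟨h0, by omega⟩, _, heC _, rfl⟩)
          rw [h2, zero_mul, hψ.zero]
    have h2 : ∀ s : ℝ, G^[m] (ψ s x₀) = ψ (sh g ε s) x₀ := by
      intro s
      rw [h1 s m hm le_rfl, hg]
      rfl
    have h3 : ∀ (l : ℕ) (s : ℝ), G^[m * l] (ψ s x₀) = ψ ((sh g ε)^[l] s) x₀ := by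
      intro l
      induction l with
      | zero => intro s; rfl
      | succ l ih =>
        intro s
        rw [Nat.mul_succ, Function.iterate_add_apply, h2, ih, Function.iterate_succ_apply]
    have hGs : OmegaStable n N r G :=
      ⟨U, hU, hGU, fun G' hG' => omegaConj_trans
        (omegaConj_symm F.continuous (hconj G hGU)) (hconj G' hG')⟩
    have hφc : Continuous fun s => (sh g ε)^[q] s - p * T :=
      ((sh_cont hgc q).comp (Continuous.prodMk_right ε)).sub continuous_const
    have hGφ : ∀ s, G^[m * q] (ψ s x₀) = ψ ((sh g ε)^[q] s - p * T) x₀ := by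
      intro s
      rw [h3]
      exact (he _ _).2 ⟨p, by ring⟩
    have hmq : 1 ≤ m * q := Nat.mul_pos hm hq
    refine not_hyp hψ G hn hmq hφc hGφ (s₁ := s₁) (by rw [hs₁]; ring)
      (Or.inl fun s => by linarith [hsemi s])
      (Pool.Agent.Y504.CO.Gen.stable_hyp hr hGs _ ⟨m * q, hmq, ?_⟩)
    rw [hGφ, hs₁]
    congr 1
    ring
  · -- orientation reversing
    have hgk : ∀ (k : ℕ) (t : ℝ), g (t + k * T) = g t - k * T := by
      intro k
      induction k with
      | zero => intro t; simp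
      | succ k ih =>
        intro t
        have e1 : t + ((k + 1 : ℕ) : ℝ) * T = (t + k * T) + T := by push_cast; ring
        rw [e1, hgT, ih]
        push_cast
        ring
    have hgk' : ∀ (k : ℕ) (t : ℝ), g (t - k * T) = g t + k * T := by
      intro k t
      have := hgk k (t - k * T)
      rw [sub_add_cancel] at this
      linarith
    obtain ⟨t₂, ht₂⟩ : ∃ t₂, g t₂ = t₂ := by
      obtain ⟨k, hk⟩ := exists_nat_gt (|g 0| / T)
      rw [div_lt_iff₀ hT] at hk
      have hk1 := (abs_lt.1 hk).1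
      have hk2 := (abs_lt.1 hk).2
      have h4 : g (0 + k * T) - (0 + k * T) ≤ 0 := by
        rw [hgk]
        linarith
      have h5 : 0 ≤ g (0 - k * T) - (0 - k * T) := by
        rw [hgk']
        linarith
      obtain ⟨z, hz⟩ := mem_range_of_exists_le_of_exists_ge
        (f := fun t => g t - t) (c := 0) (hgc.sub continuous_id) ⟨_, h4⟩ ⟨_, h5⟩
      exact ⟨z, by simp only at hz; linarith⟩
    exact hno 1 le_rfl 0 t₂ (by simpa using ht₂)

end Pool.Agent.X183.PC
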