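import Mathlib

/-!
# Lifts of circle maps: semistable periodic points after small rotations
-/

set_option autoImplicit false

open Filter Set Topology

namespace Pool.Agent.X183.PC

variable {T : ℝ} {g : ℝ → ℝ}

theorem iter_add (hgT : ∀ t, g (t + T) = g t + T) (q : ℕ) (t : ℝ) :
    g^[q] (t + T) = g^[q] t + T := by
  induction q generalizing t with
  | zero => rfl
  | succ q ih => rw [Function.iterate_succ_apply, Function.iterate_succ_apply, hgT, ih]

theorem iter_add_int (hgT : ∀ t, g (t + T) = g t + T) (q : ℕ) (k : ℤ) (t : ℝ) :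
    g^[q] (t + k * T) = g^[q] t + k * T := by
  have hnat : ∀ (m : ℕ) (t : ℝ), g^[q] (t + m * T) = g^[q] t + m * T := by
    intro m
    induction m with
    | zero => intro t; simp
    | succ m ih =>
      intro t
      have h1 : t + ((m + 1 : ℕ) : ℝ) * T = (t + m * T) + T := by push_cast; ring
      rw [h1, iter_add hgT, ih]
      push_cast
      ring
  obtain ⟨m, rfl | rfl⟩ := k.eq_nat_or_neg
  · exact_mod_cast hnat m t
  · have := hnat m (t + ((-(m : ℤ) : ℤ) : ℝ) * T)
    have h2 : t + ((-(m : ℤ) : ℤ) : ℝ) * T + m * T = t := by push_cast; ring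
    rw [h2] at this
    push_cast at this ⊢
    linarith

/-- A lift with a periodic point: points which return close at multiples of the period are
periodic. -/
theorem per_of_per (hT : 0 < T) (hg : StrictMono g) (hgT : ∀ t, g (t + T) = g t + T)
    {a : ℕ} {b : ℤ} {t₂ : ℝ} (h2 : g^[a] t₂ = t₂ + b * T) {t₀ : ℝ}
    (hrec : ∀ η > 0, ∃ j : ℕ, 1 ≤ j ∧ ∃ k : ℤ, |g^[a * j] t₀ - t₀ - k * T| < η) :
    g^[a] t₀ = t₀ + b * T := by
  -- the map `φ = g^a - bT`
  set φ : ℝ → ℝ := fun t => g^[a] t - b * T with hφ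
  have hφm : StrictMono φ := fun s t hst => by
    have := hg.iterate a hst
    simp only [hφ]
    linarith
  have hφT : ∀ (k : ℤ) (t : ℝ), φ (t + k * T) = φ t + k * T := fun k t => by
    simp only [hφ]
    rw [iter_add_int hgT]
    ring
  have hφj : ∀ (j : ℕ) (t : ℝ), g^[a * j] t = φ^[j] t + (j * b : ℤ) * T := by
    intro j
    induction j with
    | zero => intro t; simp
    | succ j ih =>
      intro t
      have h1 : g^[a * (j + 1)] t = g^[a * j] (g^[a] t) := by
        rw [← Function.iterate_add_apply]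
        congr 1
      have h3 : g^[a] t = φ t + b * T := by simp only [hφ]; ring
      rw [h1, h3, iter_add_int hgT, ih, Function.iterate_succ_apply]
      push_cast
      ring
  -- the fixed points `u ≤ t₀ < u + T`
  set k₀ : ℤ := ⌊(t₀ - t₂) / T⌋ with hk₀
  set u : ℝ := t₂ + k₀ * T with hu
  have hfu : ∀ k : ℤ, φ (u + k * T) = u + k * T := by
    intro k
    have h1 : u + k * T = t₂ + ((k₀ + k : ℤ) : ℝ) * T := by
      rw [hu]; push_cast; ring
    rw [h1, hφT]
    simp only [hφ]
    rw [h2]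
    ring
  have hu0 : φ u = u := by simpa using hfu 0
  have hu1 : φ (u + T) = u + T := by simpa using hfu 1
  have hle : u ≤ t₀ := by
    have := Int.floor_le ((t₀ - t₂) / T)
    rw [le_div_iff₀ hT] at this
    rw [hu]
    linarith
  have hlt : t₀ < u + T := by
    have := Int.lt_floor_add_one ((t₀ - t₂) / T)
    rw [div_lt_iff₀ hT] at this
    rw [hu]
    linarith
  by_contra hne
  have hne' : φ t₀ ≠ t₀ := fun h => hne (by simp only [hφ] at h; linarith)
  have hlt' : u < t₀ := lt_of_le_of_ne hle fun h => hne' (by rw [← h]; exact hu0)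
  have hiu : ∀ j, φ^[j] u = u := fun j => Function.iterate_fixed hu0 j
  have hiu1 : ∀ j, φ^[j] (u + T) = u + T := fun j => Function.iterate_fixed hu1 j
  have hb1 : ∀ j, u < φ^[j] t₀ := fun j => by
    rw [← hiu j]
    exact hφm.iterate j hlt'
  have hb2 : ∀ j, φ^[j] t₀ < u + T := fun j => by
    rw [← hiu1 j]
    exact hφm.iterate j hlt
  -- contradiction with a return
  have key : ∃ δ > 0, ∀ j : ℕ, 1 ≤ j → ∀ k : ℤ, δ ≤ |φ^[j] t₀ - t₀ - k * T| := by
    rcases lt_or_gt_of_ne hne' with h | h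
    · -- decreasing orbit
      have hdec : ∀ j : ℕ, φ^[j + 1] t₀ ≤ φ t₀ := by
        intro j
        induction j with
        | zero => exact le_rfl
        | succ j ih =>
          rw [Function.iterate_succ_apply']
          exact (hφm.monotone ih).trans (hφm h).le
      refine ⟨min (t₀ - φ t₀) (T - (t₀ - u)), lt_min (by linarith) (by linarith), ?_⟩
      intro j hj k
      obtain ⟨i, rfl⟩ : ∃ i, j = i + 1 := ⟨j - 1, by omega⟩
      have h1 := hdec i
      have h3 := hb1 (i + 1)
      rcases le_or_gt 0 k with hk | hk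
      · have hk' : (0 : ℝ) ≤ k * T := by
          have : (0 : ℝ) ≤ k := by exact_mod_cast hk
          positivity
        refine (min_le_left _ _).trans ?_
        rw [abs_of_neg (by linarith)]
        linarith
      · have hk' : (k : ℝ) * T ≤ -T := by
          have h4 : (k : ℝ) ≤ -1 := by exact_mod_cast (show k ≤ -1 by omega)
          nlinarith
        refine (min_le_right _ _).trans ?_
        refine le_trans ?_ (le_abs_self _)
        linarith
    · have hinc : ∀ j : ℕ, φ t₀ ≤ φ^[j + 1] t₀ := by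
        intro j
        induction j with
        | zero => exact le_rfl
        | succ j ih =>
          rw [Function.iterate_succ_apply']
          exact (hφm h).le.trans (hφm.monotone ih)
      refine ⟨min (φ t₀ - t₀) (t₀ - u), lt_min (by linarith) (by linarith), ?_⟩
      intro j hj k
      obtain ⟨i, rfl⟩ : ∃ i, j = i + 1 := ⟨j - 1, by omega⟩
      have h1 := hinc i
      have h3 := hb2 (i + 1)
      rcases le_or_gt k 0 with hk | hk
      · have hk' : (k : ℝ) * T ≤ 0 := by
          have : (k : ℝ) ≤ 0 := by exact_mod_cast hk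
          exact mul_nonpos_of_nonpos_of_nonneg this hT.le
        refine (min_le_left _ _).trans ?_
        refine le_trans ?_ (le_abs_self _)
        linarith
      · have hk' : T ≤ (k : ℝ) * T := by
          have h4 : (1 : ℝ) ≤ k := by exact_mod_cast (show 1 ≤ k by omega)
          nlinarith
        refine (min_le_right _ _).trans ?_
        rw [abs_of_neg (by linarith)]
        linarith
  obtain ⟨δ, hδ, hkey⟩ := key
  obtain ⟨j, hj, k, hk⟩ := hrec δ hδ
  have h5 := hkey j hj (k - j * b)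
  rw [hφj] at hk
  have h6 : φ^[j] t₀ + (j * b : ℤ) * T - t₀ - k * T =
      φ^[j] t₀ - t₀ - ((k - j * b : ℤ) : ℝ) * T := by push_cast; ring
  rw [h6] at hk
  exact absurd hk (not_lt.2 h5)

/-- the perturbed lifts -/
def sh (g : ℝ → ℝ) (ε : ℝ) : ℝ → ℝ := fun s => g (s + ε)

theorem sh_cont (hc : Continuous g) (q : ℕ) :
    Continuous fun z : ℝ × ℝ => (sh g z.1)^[q] z.2 := by
  induction q with
  | zero => exact continuous_snd
  | succ q ih =>
    have : (fun z : ℝ × ℝ => (sh g z.1)^[q + 1] z.2) =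
        fun z : ℝ × ℝ => g ((sh g z.1)^[q] z.2 + z.1) := by
      funext z
      rw [Function.iterate_succ_apply']
      rfl
    rw [this]
    exact hc.comp (ih.add continuous_fst)

theorem sh_T (hgT : ∀ t, g (t + T) = g t + T) (ε : ℝ) (t : ℝ) : sh g ε (t + T) = sh g ε t + T := by
  show g (t + T + ε) = g (t + ε) + T
  rw [← hgT]
  congr 1
  ring

/-- `h_ε = g + ε` and `f_ε = g (· + ε)` are conjugate. -/
theorem sh_ge (hg : Monotone g) {ε : ℝ} (hε : 0 ≤ ε) (q : ℕ) (t : ℝ) :
    g^[q] t ≤ (sh g ε)^[q] (t - ε) + (if q = 0 then ε else 0) := by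
  induction q with
  | zero => simp
  | succ q ih =>
    rw [Function.iterate_succ_apply', Function.iterate_succ_apply']
    simp only [Nat.succ_ne_zero, if_false, add_zero]
    show g (g^[q] t) ≤ g ((sh g ε)^[q] (t - ε) + ε)
    apply hg
    split_ifs at ih with h
    · exact ih
    · linarith

/-- Semistable periodic points (positive rotations). -/
theorem semistable_pos (hT : 0 < T) (hc : Continuous g) (hg : StrictMono g)
    (hgT : ∀ t, g (t + T) = g t + T) {q : ℕ} (hq : 1 ≤ q) {p : ℤ}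
    (hno : ∀ t, g^[q] t ≠ t + p * T) {t₀ D : ℝ} (hD : 0 < D)
    (hlt : g^[q] t₀ < t₀ + p * T) (hgt : t₀ + p * T - D < g^[q] t₀) :
    ∃ ε : ℝ, 0 < ε ∧ ε ≤ D ∧ ∃ s₁ : ℝ, (sh g ε)^[q] s₁ = s₁ + p * T ∧
      ∀ s, (sh g ε)^[q] s ≤ s + p * T := by
  set Φ : ℝ → ℝ → ℝ := fun ε s => (sh g ε)^[q] s - s - p * T with hΦ
  have hΦc : Continuous (Function.uncurry Φ) := by
    have h1 := sh_cont hc q
    show Continuous fun z : ℝ × ℝ => (sh g z.1)^[q] z.2 - z.2 - p * T
    exact (h1.sub continuous_snd).sub continuous_const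
  have hΦT : ∀ ε s (k : ℤ), Φ ε (s + k * T) = Φ ε s := by
    intro ε s k
    simp only [hΦ]
    rw [iter_add_int (sh_T hgT ε)]
    ring
  have hK : IsCompact (Icc (0 : ℝ) T) := isCompact_Icc
  have hKn : (Icc (0 : ℝ) T).Nonempty := nonempty_Icc.2 hT.le
  set M : ℝ → ℝ := fun ε => sSup (Φ ε '' Icc 0 T) with hM
  have hMc : Continuous M := hK.continuous_sSup hΦc
  have hle : ∀ ε s, Φ ε s ≤ M ε := by
    intro ε s
    have h1 : s = (s - ⌊s / T⌋ * T) + ((⌊s / T⌋ : ℤ) : ℝ) * T := by ring
    rw [h1, hΦT]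
    have hcε : Continuous (Φ ε) := hΦc.comp (Continuous.prodMk_right ε)
    refine le_csSup (hK.image hcε).bddAbove ⟨_, ⟨?_, ?_⟩, rfl⟩
    · have := Int.floor_le (s / T)
      rw [le_div_iff₀ hT] at this
      linarith
    · have := Int.lt_floor_add_one (s / T)
      rw [div_lt_iff₀ hT] at this
      linarith
  have hex : ∀ ε, ∃ s ∈ Icc (0 : ℝ) T, M ε = Φ ε s := by
    intro ε
    have hcε : Continuous (Φ ε) := hΦc.comp (Continuous.prodMk_right ε)
    obtain ⟨s, hs, h⟩ := hK.exists_sSup_image_eq hKn hcε.continuousOn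
    exact ⟨s, hs, h⟩
  have hsh0 : sh g 0 = g := by
    funext s
    show g (s + 0) = g s
    rw [add_zero]
  -- negative at zero
  have hM0 : M 0 < 0 := by
    obtain ⟨s, hs, h⟩ := hex 0
    rw [h]
    by_contra hge
    push Not at hge
    have h1 : Φ 0 t₀ < 0 := by
      simp only [hΦ, hsh0]
      linarith
    have hc0 : Continuous (Φ 0) := hΦc.comp (Continuous.prodMk_right 0)
    obtain ⟨z, hz⟩ := mem_range_of_exists_le_of_exists_ge hc0 ⟨t₀, h1.le⟩ ⟨s, hge⟩
    simp only [hΦ, hsh0] at hz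
    exact hno z (by linarith)
  have hMD : 0 ≤ M D := by
    refine le_trans ?_ (hle D (t₀ - D))
    have h1 := sh_ge hg.monotone hD.le q t₀
    rw [if_neg (by omega)] at h1
    simp only [hΦ]
    linarith
  obtain ⟨ε, hε, hMε⟩ := intermediate_value_Icc hD.le hMc.continuousOn ⟨hM0.le, hMD⟩
  have hε0 : ε ≠ 0 := by
    rintro rfl
    rw [hMε] at hM0
    exact lt_irrefl _ hM0
  obtain ⟨s₁, -, hs₁⟩ := hex ε
  refine ⟨ε, lt_of_le_of_ne hε.1 (Ne.symm hε0), hε.2, s₁, ?_, fun s => ?_⟩
  · rw [hMε] at hs₁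
    simp only [hΦ] at hs₁
    linarith
  · have := hle ε s
    rw [hMε] at this
    simp only [hΦ] at this
    linarith

/-- conjugation by `-1` -/
def fl (g : ℝ → ℝ) : ℝ → ℝ := fun s => -g (-s)

theorem fl_iter (q : ℕ) (s : ℝ) : (fl g)^[q] s = -g^[q] (-s) := by
  induction q generalizing s with
  | zero => simp
  | succ q ih =>
    rw [Function.iterate_succ_apply, Function.iterate_succ_apply, ih]
    simp [fl]

theorem sh_fl (ε : ℝ) : sh (fl g) ε = fl (sh g (-ε)) := by
  funext s
  show -g (-(s + ε)) = -g (-s + -ε)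
  congr 2
  ring

/-- **Semistable periodic points after small rotations.** -/
theorem semistable (hT : 0 < T) (hc : Continuous g) (hg : StrictMono g)
    (hgT : ∀ t, g (t + T) = g t + T)
    (hno : ∀ q : ℕ, 1 ≤ q → ∀ (p : ℤ) (t : ℝ), g^[q] t ≠ t + p * T) {t₀ : ℝ}
    (hrec : ∀ η > 0, ∃ q : ℕ, 1 ≤ q ∧ ∃ p : ℤ, |g^[q] t₀ - t₀ - p * T| < η) {κ : ℝ} (hκ : 0 < κ) :
    ∃ ε : ℝ, |ε| < κ ∧ ∃ q : ℕ, 1 ≤ q ∧ ∃ p : ℤ, ∃ s₁ : ℝ, (sh g ε)^[q] s₁ = s₁ + p * T ∧
      ((∀ s, (sh g ε)^[q] s ≤ s + p * T) ∨ ∀ s, s + p * T ≤ (sh g ε)^[q] s) := by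
  obtain ⟨q, hq, p, hp⟩ := hrec (κ / 2) (by linarith)
  rw [abs_lt] at hp
  rcases lt_or_gt_of_ne (hno q hq p t₀) with h | h
  · obtain ⟨ε, h1, h2, s₁, h3, h4⟩ := semistable_pos hT hc hg hgT hq (hno q hq p)
      (by linarith : 0 < κ / 2) h (by linarith)
    exact ⟨ε, by rw [abs_of_pos h1]; linarith, q, hq, p, s₁, h3, Or.inl h4⟩
  · have hc' : Continuous (fl g) := (hc.comp continuous_neg).neg
    have hg' : StrictMono (fl g) := fun s t hst => by
      have := hg (neg_lt_neg hst)
      show -g (-s) < -g (-t)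
      linarith
    have hgT' : ∀ t, fl g (t + T) = fl g t + T := fun t => by
      have := hgT (-(t + T))
      show -g (-(t + T)) = -g (-t) + T
      have e : -(t + T) + T = -t := by ring
      rw [e] at this
      linarith
    have hno' : ∀ t, (fl g)^[q] t ≠ t + (-p : ℤ) * T := fun t ht => by
      rw [fl_iter] at ht
      apply hno q hq p (-t)
      push_cast at ht
      linarith
    obtain ⟨ε, h1, h2, s₁, h3, h4⟩ := semistable_pos (t₀ := -t₀) hT hc' hg' hgT' hq hno'
      (by linarith : 0 < κ / 2) (by rw [fl_iter, neg_neg]; push_cast; linarith)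
      (by rw [fl_iter, neg_neg]; push_cast; linarith)
    rw [sh_fl, fl_iter] at h3
    push_cast at h3
    refine ⟨-ε, by rw [abs_neg, abs_of_pos h1]; linarith, q, hq, p, -s₁, by linarith,
      Or.inr fun s => ?_⟩
    have := h4 (-s)
    rw [sh_fl, fl_iter, neg_neg] at this
    push_cast at this
    linarith

end Pool.Agent.X183.PC
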