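import Pool.Agent.X183.PC.Circ

/-!
# Lifts of circle maps without periodic points: closing at every point by a small rotation
-/

set_option autoImplicit false

open Filter Set Topology

namespace Pool.Agent.X183.PC

variable {T : ℝ} {g : ℝ → ℝ}

/-- The lift `g (· + ε)`, normalised. -/
noncomputable def cl (hT : 0 < T) (hg : StrictMono g) (hgT : ∀ t, g (t + T) = g t + T) (ε : ℝ) :
    CircleDeg1Lift where
  toFun x := sh g ε (T * x) / T
  monotone' := fun x y hxy => by
    have h1 : T * x ≤ T * y := mul_le_mul_of_nonneg_left hxy hT.le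
    have h2 : sh g ε (T * x) ≤ sh g ε (T * y) := hg.monotone (by linarith)
    exact div_le_div_of_nonneg_right h2 hT.le
  map_add_one' := fun x => by
    have h1 : T * (x + 1) = T * x + T := by ring
    show sh g ε (T * (x + 1)) / T = sh g ε (T * x) / T + 1
    rw [h1, sh_T hgT]
    field_simp

variable (hT : 0 < T) (hg : StrictMono g) (hgT : ∀ t, g (t + T) = g t + T)

theorem cl_pow (ε : ℝ) (q : ℕ) (x : ℝ) :
    ((cl hT hg hgT ε) ^ q) x = (sh g ε)^[q] (T * x) / T := by
  rw [CircleDeg1Lift.coe_pow]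
  induction q with
  | zero =>
    show x = T * x / T
    field_simp
  | succ q ih =>
    rw [Function.iterate_succ_apply', Function.iterate_succ_apply', ih]
    show sh g ε (T * ((sh g ε)^[q] (T * x) / T)) / T = _
    congr 2
    field_simp

theorem cl_cont (hc : Continuous g) (ε : ℝ) : Continuous (cl hT hg hgT ε) := by
  show Continuous fun x => g (T * x + ε) / T
  fun_prop

include hT hg hgT in
/-- **Closing at every point.** -/
theorem close_all (hc : Continuous g)
    (hno : ∀ q : ℕ, 1 ≤ q → ∀ (p : ℤ) (t : ℝ), g^[q] t ≠ t + p * T) {κ : ℝ} (hκ : 0 < κ) (t₀ : ℝ) :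
    ∃ ε : ℝ, |ε| < κ ∧ ∃ q : ℕ, 1 ≤ q ∧ ∃ p : ℤ, (sh g ε)^[q] t₀ = t₀ + p * T := by
  have hsh0 : sh g 0 = g := by
    funext s
    show g (s + 0) = g s
    rw [add_zero]
  set τ₀ : ℝ := (cl hT hg hgT 0).translationNumber with hτ₀
  have hirr : Irrational τ₀ := by
    rintro ⟨r, hr⟩
    have h1 : τ₀ = (r.num : ℝ) / (r.den : ℕ) := by
      rw [← hr]
      exact_mod_cast (Rat.num_div_den r).symm
    obtain ⟨x, hx⟩ := (CircleDeg1Lift.translationNumber_eq_rat_iff _ (cl_cont hT hg hgT hc 0)
      r.den_pos).1 h1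
    rw [cl_pow, hsh0, div_eq_iff hT.ne'] at hx
    exact hno r.den r.den_pos r.num (T * x) (by rw [hx]; ring)
  set δ : ℝ := κ / 2 with hδ
  have hδ0 : 0 < δ := by positivity
  set c : ℝ := δ / T with hcd
  have hc0 : 0 < c := by positivity
  -- one-sided approximation
  obtain ⟨q, p, hq, hp0, hpc⟩ : ∃ (q : ℕ) (p : ℤ), 1 ≤ q ∧ 0 < (p : ℝ) - q * τ₀ ∧
      (p : ℝ) - q * τ₀ < c := by
    obtain ⟨c₁, hc1, hc1c, hc11⟩ : ∃ c₁ : ℝ, 0 < c₁ ∧ c₁ ≤ c ∧ c₁ ≤ 1 :=
      ⟨min c 1, lt_min hc0 one_pos, min_le_left _ _, min_le_right _ _⟩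
    obtain ⟨n, hn⟩ := exists_nat_gt (1 / c₁)
    have hn0 : 0 < n := by
      have h1 : (0 : ℝ) < n := lt_trans (by positivity) hn
      exact_mod_cast h1
    obtain ⟨j, k, hk0, hkn, hjk⟩ := Real.exists_int_int_abs_mul_sub_le τ₀ hn0
    have hsm : (1 : ℝ) / (n + 1) < c₁ := by
      rw [div_lt_comm₀ (by positivity) hc1]
      linarith
    have hne : (k : ℝ) * τ₀ - j ≠ 0 := by
      intro h
      have h2 : τ₀ = (j : ℝ) / k := by
        rw [eq_div_iff (by exact_mod_cast hk0.ne')]
        linarith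
      apply hirr
      rw [h2]
      exact ⟨(j : ℚ) / k, by push_cast; rfl⟩
    obtain ⟨k', rfl⟩ : ∃ k' : ℕ, k = k' := ⟨k.toNat, by omega⟩
    have hk1 : 1 ≤ k' := by exact_mod_cast hk0
    rcases lt_or_gt_of_ne hne with h | h
    · refine ⟨k', j, hk1, ?_, ?_⟩
      · push_cast at h
        linarith
      · rw [abs_of_neg h] at hjk
        push_cast at hjk
        linarith
    · set d : ℝ := (k' : ℝ) * τ₀ - j with hd
      have hd0 : 0 < d := by
        push_cast at h
        exact h
      have hdc : d < c₁ := by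
        rw [abs_of_pos h] at hjk
        push_cast at hjk
        linarith
      set i : ℕ := ⌊1 / d⌋₊ with hi
      have h3 : (i : ℝ) ≤ 1 / d := Nat.floor_le (by positivity)
      have h4 : 1 / d < i + 1 := Nat.lt_floor_add_one _
      rw [le_div_iff₀ hd0] at h3
      rw [div_lt_iff₀ hd0] at h4
      have h5 : (((i * j + 1 : ℤ)) : ℝ) - ((i * k' : ℕ) : ℝ) * τ₀ = 1 - i * d := by
        rw [hd]
        push_cast
        ring
      have hi1 : 1 ≤ i * k' := by
        by_contra hcon
        have h6 : i * k' = 0 := by omega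
        have h7 : i = 0 := by
          rcases Nat.mul_eq_zero.1 h6 with h7 | h7
          · exact h7
          · omega
        rw [h7] at h4
        push_cast at h4
        linarith
      refine ⟨i * k', i * j + 1, hi1, ?_, ?_⟩
      · rw [h5]
        rcases (show 0 ≤ 1 - (i : ℝ) * d by linarith).eq_or_lt with h6 | h6
        · exfalso
          have h7 : ((i * k' : ℕ) : ℝ) * τ₀ = ((i * j + 1 : ℤ) : ℝ) := by linarith
          have h8 : (((i * k' : ℕ)) : ℝ) ≠ 0 := by
            have : 0 < i * k' := hi1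
            exact_mod_cast this.ne'
          apply hirr
          exact ⟨((i * j + 1 : ℤ) : ℚ) / ((i * k' : ℕ) : ℚ), by
            push_cast at h7 h8 ⊢
            rw [div_eq_iff h8]
            linarith⟩
        · exact h6
      · rw [h5]
        linarith
  -- a rotation by `δ` increases the translation number
  have hgt : τ₀ < (cl hT hg hgT δ).translationNumber := by
    obtain ⟨x, hx⟩ : ∃ x, x + ((p : ℝ) - c) < ((cl hT hg hgT 0) ^ q) x := by
      by_contra hcon
      push Not at hcon
      have h1 := CircleDeg1Lift.translationNumber_le_of_le_add _ hcon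
      rw [CircleDeg1Lift.translationNumber_pow] at h1
      linarith
    rw [cl_pow, hsh0, lt_div_iff₀ hT] at hx
    have h2 := sh_ge hg.monotone hδ0.le q (T * x)
    rw [if_neg (by omega), add_zero] at h2
    have h3 : c * T = δ := by rw [hcd]; field_simp
    have h4 : (x - c) + (p : ℤ) ≤ ((cl hT hg hgT δ) ^ q) (x - c) := by
      rw [cl_pow, le_div_iff₀ hT]
      have h5 : T * (x - c) = T * x - δ := by rw [← h3]; ring
      rw [h5]
      refine le_trans ?_ h2
      nlinarith
    have h6 := CircleDeg1Lift.le_translationNumber_of_add_int_le _ h4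
    rw [CircleDeg1Lift.translationNumber_pow] at h6
    have hq0 : (0 : ℝ) < q := by exact_mod_cast hq
    nlinarith
  obtain ⟨r, hr1, hr2⟩ := exists_rat_btwn hgt
  have hd0 : (0 : ℝ) < (r.den : ℕ) := by exact_mod_cast r.den_pos
  have hrr : (r : ℝ) * (r.den : ℕ) = r.num := by
    exact_mod_cast Rat.mul_den_eq_num r
  have h0 : ((cl hT hg hgT 0) ^ r.den) (t₀ / T) < t₀ / T + r.num := by
    apply CircleDeg1Lift.map_lt_of_translationNumber_lt_int
    rw [CircleDeg1Lift.translationNumber_pow, ← hrr]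
    nlinarith
  have h1 : t₀ / T + r.num < ((cl hT hg hgT δ) ^ r.den) (t₀ / T) := by
    apply CircleDeg1Lift.lt_map_of_int_lt_translationNumber
    rw [CircleDeg1Lift.translationNumber_pow, ← hrr]
    nlinarith
  have hTt : T * (t₀ / T) = t₀ := by field_simp
  rw [cl_pow, hTt, div_lt_iff₀ hT] at h0
  rw [cl_pow, hTt, lt_div_iff₀ hT] at h1
  have hcont : Continuous fun ε => (sh g ε)^[r.den] t₀ :=
    (sh_cont hc r.den).comp (Continuous.prodMk_left t₀)
  have hval : t₀ + r.num * T ∈ Icc ((sh g 0)^[r.den] t₀) ((sh g δ)^[r.den] t₀) := by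
    have h2 : (t₀ / T + r.num) * T = t₀ + r.num * T := by field_simp
    rw [h2] at h0 h1
    exact ⟨h0.le, h1.le⟩
  obtain ⟨ε, hε, hεv⟩ := intermediate_value_Icc hδ0.le hcont.continuousOn hval
  refine ⟨ε, ?_, r.den, r.den_pos, r.num, hεv⟩
  rw [abs_of_nonneg hε.1]
  exact lt_of_le_of_lt hε.2 (by rw [hδ]; linarith)

end Pool.Agent.X183.PC
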