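import Pool.Agent.X183.PC.Main
import Pool.Agent.X183.PC.Circ2
import Pool.Agent.TH80.CLX.Main

/-!
# The `C^r` closing lemma on periodic closed curves
-/

set_option autoImplicit false
set_option linter.unusedSectionVars false

open scoped Manifold ContDiff Topology
open Filter Set Metric

universe u

namespace Pool.Agent.X183.PC

open Pool.Agent.H718R2.G Pool.Agent.TH290.CL Pool.Agent.TH80.CLX Pool.Agent.TH80.OMS
open Pool.Agent.W564.SC
open Pool.Agent.Y504.CO (Rec)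

variable {n : ℕ} {N : Type u} [TopologicalSpace N] [T2Space N] [CompactSpace N]
  [ChartedSpace (V n) N] [IsManifold (𝓡 n) ∞ N]

/-- `z` lies on a smooth closed curve `C` which is periodic under `F`, and `z` is recurrent or `C`
contains no periodic points of `F`. -/
def GoodPt (n : ℕ) {N : Type u} [TopologicalSpace N] [ChartedSpace (V n) N] (F : N → N) (z : N) :
    Prop :=
  ∃ C : Set N, IsClosedCurve n N C ∧ IsPerSet F C ∧ z ∈ C ∧ (z ∈ Rec F ∨ Disjoint C (Per F))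

theorem closable_good (r : ℕ∞) (hr : 1 ≤ r) (F : DiffM n N r) (z : N) (h : GoodPt n F z) :
    Closable n N r F z := by
  intro U hU hFU
  obtain ⟨C, ⟨ψ, hψ, x₀, ⟨T₀, hT₀, hT₀x⟩, hn, hCe⟩, ⟨m, hm, hCm, hdis⟩, hzC, hz⟩ := h
  by_cases hzp : z ∈ Per F
  · exact ⟨F, hFU, hzp⟩
  obtain ⟨T, hT, he⟩ := exists_period (orb_cont hψ) hψ.zero hψ.add hT₀.ne' hT₀x hn
  obtain ⟨t₀, ht₀⟩ : ∃ t₀, ψ t₀ x₀ = z := by
    rw [hCe] at hzC
    exact hzC
  have hec : Continuous fun t => ψ t x₀ := orb_cont hψ x₀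
  have hFc : ∀ i : ℕ, Continuous (F^[i]) := fun i => F.continuous.iterate i
  have heC : ∀ t, ψ t x₀ ∈ C := fun t => by
    rw [hCe]
    exact ⟨t, rfl⟩
  have hFi : ∀ i : ℕ, Function.Injective (F^[i]) := fun i => F.injective.iterate i
  obtain ⟨g, hgc, hg, hmono⟩ := exists_mono_lift (e := fun t => ψ t x₀) hec hT he (hFc m)
    (fun s => by
      have h1 := hCm _ (heC s)
      rw [hCe] at h1
      obtain ⟨t, ht⟩ := h1
      exact ⟨t, ht.symm⟩) (fun s t h => hFi m h)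
  have hgq : ∀ (q : ℕ) (t : ℝ), F^[m * q] (ψ t x₀) = ψ (g^[q] t) x₀ := by
    intro q
    induction q with
    | zero => intro t; rfl
    | succ q ih =>
      intro t
      rw [Nat.mul_succ, Function.iterate_add_apply, hg, ih, Function.iterate_succ_apply]
  -- a periodic point on the curve makes `z` recurrent
  have hrec : ∀ (q : ℕ) (p : ℤ) (t : ℝ), 1 ≤ q → g^[q] t = t + p * T → z ∈ Rec F := by
    intro q p t hq h
    rcases hz with hz | hz
    · exact hz
    · exfalso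
      refine Set.disjoint_left.1 hz (heC t) ⟨m * q, Nat.mul_pos hm hq, ?_⟩
      rw [hgq, h]
      exact (he _ _).2 ⟨p, by ring⟩
  have hret : z ∈ Rec F → ∀ Q : ℕ, 1 ≤ Q → ∀ η > 0, ∃ j : ℕ, 1 ≤ j ∧ ∃ k : ℤ,
      |g^[Q * j] t₀ - t₀ - k * T| < η := by
    intro hx Q hQ η hη
    obtain ⟨W, hW, hWs⟩ := near_param (e := fun t => ψ t x₀) hec hT he t₀ hη
    rw [ht₀] at hW
    obtain ⟨M, -, hM1, ⟨j, hj⟩, hMW, -⟩ := blocks F F.continuous z hx W hW 0 (m * Q)
      (Nat.mul_pos hm hQ) 1 one_pos 0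
    have hj1 : 1 ≤ j := by
      rcases Nat.eq_zero_or_pos j with h | h
      · rw [h, mul_zero] at hj
        omega
      · exact h
    refine ⟨j, hj1, hWs _ ?_⟩
    rw [← hgq, ht₀, ← mul_assoc, ← hj]
    exact hMW
  have hperx : ∀ (q : ℕ) (p : ℤ), 1 ≤ q → g^[q] t₀ = t₀ + p * T → False := by
    intro q p hq h
    refine hzp ⟨m * q, Nat.mul_pos hm hq, ?_⟩
    rw [← ht₀, hgq, h]
    exact (he _ _).2 ⟨p, by ring⟩
  rcases hmono with ⟨hmon, hgT⟩ | ⟨hanti, hgT⟩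
  · have hno : ∀ q : ℕ, 1 ≤ q → ∀ (p : ℤ) (t : ℝ), g^[q] t ≠ t + p * T := by
      intro q hq p t h
      exact hperx q p hq (per_of_per hT hmon hgT h (hret (hrec q p t hq h) q hq))
    -- the cut-off function
    obtain ⟨C0, hC0⟩ : ∃ C0 : Set N, C0 = ⋃ i ∈ Finset.Ico 1 m, F^[i] '' C := ⟨_, rfl⟩
    have hCc : IsCompact C := by
      have h1 : C = (fun t => ψ t x₀) '' Icc 0 T := by
        rw [hCe]
        ext y
        constructor
        · rintro ⟨t, rfl⟩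
          refine ⟨t - ⌊t / T⌋ * T, ⟨?_, ?_⟩, ?_⟩
          · have := Int.floor_le (t / T)
            rw [le_div_iff₀ hT] at this
            linarith
          · have := Int.lt_floor_add_one (t / T)
            rw [div_lt_iff₀ hT] at this
            linarith
          · exact (he _ _).2 ⟨-⌊t / T⌋, by push_cast; ring⟩
        · rintro ⟨t, -, rfl⟩
          exact ⟨t, rfl⟩
      rw [h1]
      exact isCompact_Icc.image hec
    have hC0c : IsClosed C0 := by
      rw [hC0]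
      exact isClosed_biUnion_finset fun i _ => (hCc.image (hFc i)).isClosed
    have hdisj : Disjoint C0 C := by
      rw [hC0, Set.disjoint_left]
      intro y hy1 hy2
      simp only [mem_iUnion, Finset.mem_Ico] at hy1
      obtain ⟨i, ⟨hi1, hi2⟩, hy⟩ := hy1
      exact Set.disjoint_left.1 (hdis i hi1 hi2) hy hy2
    obtain ⟨f, hf0, hf1, -⟩ := exists_contMDiffMap_zero_one_of_isClosed (n := ⊤) (𝓡 n) hC0c
      hCc.isClosed hdisj
    have hρ : ContMDiff (𝓡 n) 𝓘(ℝ, ℝ) ∞ (f : N → ℝ) := f.contMDiff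
    obtain ⟨κ, hκ, hpert⟩ := perturb hr F hψ hρ z U hU hFU
    obtain ⟨ε, hε, q, hq, p, hqp⟩ := close_all hT hmon hgT hgc hno hκ t₀
    obtain ⟨G, hGU, hG⟩ := hpert ε hε
    have h1 : ∀ (s : ℝ) (i : ℕ), 1 ≤ i → i ≤ m → G^[i] (ψ s x₀) = F^[i] (ψ (s + ε) x₀) := by
      intro s i hi
      induction i with
      | zero => omega
      | succ i ih =>
        intro him
        rcases Nat.eq_zero_or_pos i with h0 | h0
        · subst h0
          have h2 : f (ψ s x₀) = 1 := hf1 (heC s)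
          show G (ψ s x₀) = F (ψ (s + ε) x₀)
          rw [hG, h2, one_mul, ← hψ.add, add_comm]
        · rw [Function.iterate_succ_apply', ih h0 (by omega), hG,
            Function.iterate_succ_apply' F]
          have h2 : f (F^[i] (ψ (s + ε) x₀)) = 0 := hf0 (by
            rw [hC0]
            simp only [mem_iUnion, Finset.mem_Ico]
            exact ⟨i, ⟨h0, by omega⟩, _, heC _, rfl⟩)
          rw [h2, zero_mul, hψ.zero]
    have h2 : ∀ s : ℝ, G^[m] (ψ s x₀) = ψ (sh g ε s) x₀ := by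
      intro s
      rw [h1 s m hm le_rfl, hg]
      rfl
    have h3 : ∀ (l : ℕ) (s : ℝ), G^[m * l] (ψ s x₀) = ψ ((sh g ε)^[l] s) x₀ := by
      intro l
      induction l with
      | zero => intro s; rfl
      | succ l ih =>
        intro s
        rw [Nat.mul_succ, Function.iterate_add_apply, h2, ih, Function.iterate_succ_apply]
    refine ⟨G, hGU, m * q, Nat.mul_pos hm hq, ?_⟩
    rw [← ht₀, h3, hqp]
    exact (he _ _).2 ⟨p, by ring⟩
  · -- orientation reversing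
    exfalso
    have hgk : ∀ (k : ℕ) (t : ℝ), g (t + k * T) = g t - k * T := by
      intro k
      induction k with
      | zero => intro t; simp
      | succ k ih =>
        intro t
        have e1 : t + ((k + 1 : ℕ) : ℝ) * T = (t + k * T) + T := by push_cast; ring
        rw [e1, hgT, ih]
        push_cast
        ring
    have hgk' : ∀ (k : ℕ) (t : ℝ), g (t - k * T) = g t + k * T := by
      intro k t
      have := hgk k (t - k * T)
      rw [sub_add_cancel] at this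
      linarith
    obtain ⟨t₂, ht₂⟩ : ∃ t₂, g t₂ = t₂ := by
      obtain ⟨k, hk⟩ := exists_nat_gt (|g 0| / T)
      rw [div_lt_iff₀ hT] at hk
      have hk1 := (abs_lt.1 hk).1
      have hk2 := (abs_lt.1 hk).2
      have h4 : g (0 + k * T) - (0 + k * T) ≤ 0 := by
        rw [hgk]
        linarith
      have h5 : 0 ≤ g (0 - k * T) - (0 - k * T) := by
        rw [hgk']
        linarith
      obtain ⟨z, hz⟩ := mem_range_of_exists_le_of_exists_ge
        (f := fun t => g t - t) (c := 0) (hgc.sub continuous_id) ⟨_, h4⟩ ⟨_, h5⟩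
      exact ⟨z, by simp only at hz; linarith⟩
    have hmon2 : StrictMono (g^[2]) := fun s t hst => hanti (hanti hst)
    have hgT2 : ∀ t, g^[2] (t + T) = g^[2] t + T := by
      intro t
      show g (g (t + T)) = g (g t) + T
      rw [hgT]
      have := hgk' 1 (g t)
      push_cast at this
      rw [one_mul] at this
      exact this
    have h6 : (g^[2])^[1] t₂ = t₂ + ((0 : ℤ) : ℝ) * T := by
      show g (g t₂) = _
      rw [ht₂, ht₂]
      simp
    have h7 := per_of_per hT hmon2 hgT2 h6 (t₀ := t₀) (fun η hη => by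
      obtain ⟨j, hj, k, hk⟩ := hret (hrec 1 0 t₂ le_rfl (by simpa using ht₂)) 2
        (by norm_num) η hη
      refine ⟨j, hj, k, ?_⟩
      rw [one_mul, ← Function.iterate_mul]
      exact hk)
    exact hperx 2 0 (by norm_num) h7

/-! ### conjugation -/

theorem conj_flow (Ψ : DiffM n N ⊤) {ψ : ℝ → N → N} (hψ : IsFlow n N ψ) :
    IsFlow n N (fun t y => Ψ.symm (ψ t (Ψ y))) := by
  have hΨ : ContMDiff (𝓡 n) (𝓡 n) ∞ Ψ := Ψ.contMDiff
  have hΨ' : ContMDiff (𝓡 n) (𝓡 n) ∞ Ψ.symm := Ψ.symm.contMDiff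
  refine ⟨?_, fun y => ?_, fun s t y => ?_⟩
  · have h1 : ContMDiff (𝓘(ℝ, ℝ).prod (𝓡 n)) (𝓘(ℝ, ℝ).prod (𝓡 n)) ∞
        (fun p : ℝ × N => ((p.1, Ψ p.2) : ℝ × N)) :=
      contMDiff_fst.prodMk (hΨ.comp contMDiff_snd)
    exact hΨ'.comp (hψ.smooth.comp h1)
  · show Ψ.symm (ψ 0 (Ψ y)) = y
    rw [hψ.zero, Ψ.symm_apply_apply]
  · show Ψ.symm (ψ (s + t) (Ψ y)) = Ψ.symm (ψ s (Ψ (Ψ.symm (ψ t (Ψ y)))))
    rw [Ψ.apply_symm_apply, hψ.add]

theorem conj_good (Ψ : DiffM n N ⊤) (F H : N → N) (hH : ∀ y, H y = Ψ.symm (F (Ψ y))) (z : N)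
    (h : GoodPt n F (Ψ z)) : GoodPt n H z := by
  have hit : ∀ (k : ℕ) (y : N), H^[k] y = Ψ.symm (F^[k] (Ψ y)) := by
    intro k
    induction k with
    | zero => intro y; exact (Ψ.symm_apply_apply y).symm
    | succ k ih =>
      intro y
      rw [Function.iterate_succ_apply', ih, hH, Ψ.apply_symm_apply,
        Function.iterate_succ_apply' F]
  obtain ⟨C, ⟨ψ, hψ, x₀, ⟨T₀, hT₀, hT₀x⟩, ⟨t₁, ht₁⟩, hCe⟩, ⟨m, hm, hCm, hdis⟩, hzC, hz⟩ := h
  refine ⟨Ψ ⁻¹' C, ⟨_, conj_flow Ψ hψ, Ψ.symm x₀, ⟨T₀, hT₀, ?_⟩, ⟨t₁, fun h => ht₁ ?_⟩, ?_⟩,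
    ⟨m, hm, fun y hy => ?_, fun i h1 h2 => ?_⟩, hzC, ?_⟩
  · show Ψ.symm (ψ T₀ (Ψ (Ψ.symm x₀))) = Ψ.symm x₀
    rw [Ψ.apply_symm_apply, hT₀x]
  · have h' : Ψ.symm (ψ t₁ (Ψ (Ψ.symm x₀))) = Ψ.symm x₀ := h
    rw [Ψ.apply_symm_apply] at h'
    exact Ψ.symm.injective h'
  · rw [hCe]
    ext y
    constructor
    · rintro ⟨t, ht⟩
      have ht' : ψ t x₀ = Ψ y := ht
      refine ⟨t, ?_⟩
      show Ψ.symm (ψ t (Ψ (Ψ.symm x₀))) = y
      rw [Ψ.apply_symm_apply, ht', Ψ.symm_apply_apply]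
    · rintro ⟨t, ht⟩
      have ht' : Ψ.symm (ψ t (Ψ (Ψ.symm x₀))) = y := ht
      rw [Ψ.apply_symm_apply] at ht'
      refine ⟨t, ?_⟩
      show ψ t x₀ = Ψ y
      rw [← ht', Ψ.apply_symm_apply]
  · show Ψ (H^[m] y) ∈ C
    rw [hit, Ψ.apply_symm_apply]
    exact hCm _ hy
  · rw [Set.disjoint_left]
    rintro _ ⟨y, hy, rfl⟩ hy'
    have h3 : Ψ (H^[i] y) ∈ C := hy'
    rw [hit, Ψ.apply_symm_apply] at h3
    exact Set.disjoint_left.1 (hdis i h1 h2) ⟨_, hy, rfl⟩ h3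
  · rcases hz with hz | hz
    · left
      intro W hW
      have h3 : Ψ.symm ⁻¹' W ∈ 𝓝 (Ψ z) := by
        apply Ψ.symm.continuous.continuousAt.preimage_mem_nhds
        rw [Ψ.symm_apply_apply]
        exact hW
      obtain ⟨k, hk, hkW⟩ := hz _ h3
      exact ⟨k, hk, by rw [hit]; exact hkW⟩
    · right
      rw [Set.disjoint_left] at hz ⊢
      rintro y hy ⟨k, hk, hky⟩
      apply hz hy
      refine ⟨k, hk, ?_⟩
      rw [hit] at hky
      have := congrArg Ψ hky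
      rwa [Ψ.apply_symm_apply] at this

/-- **Closing at limits of points on periodic closed curves.** -/
theorem closing_main (r : ℕ∞) (hr : 1 ≤ r) (F : DiffM n N r) (z : N)
    (h : ∀ U : Set (DiffM n N r), IsOpen[strongTop n N r] U → F ∈ U →
      ∃ F' ∈ U, z ∈ closure {y | GoodPt n F' y}) : Closable n N r F z := by
  intro U hU hFU
  obtain ⟨F', hF'U, hz⟩ := h U hU hFU
  have hr' : (r : WithTop ℕ∞) ≤ ∞ := by exact_mod_cast le_top
  obtain ⟨χ, hχ⟩ := Pool.Agent.W699.SC.gc n N z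
  obtain ⟨Ψ, κ, hκ, hΨ0, hΨs, hΨs', hΨt⟩ := Pool.Agent.W782.SC.psi n N ⊤ χ z hχ
  let T : V n → DiffM n N r := fun x =>
    { toEquiv := (Ψ x).toEquiv
      contMDiff_toFun := (Ψ x).contMDiff_toFun.of_le hr'
      contMDiff_invFun := (Ψ x).contMDiff_invFun.of_le hr' }
  have hT : ∀ x y, T x y = Ψ x y := fun x y => rfl
  have hT' : ∀ x y, (T x).symm y = (Ψ x).symm y := fun x y => rfl
  obtain ⟨H, hH⟩ : ∃ H : V n → DiffM n N r, ∀ x y, H x y = (Ψ x).symm (F' (Ψ x y)) :=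
    ⟨fun x => (T x).trans (F'.trans (T x).symm), fun x y => rfl⟩
  have hΨ0' : ∀ y, (Ψ 0).symm y = y := by
    intro y
    have := (Ψ 0).symm_apply_apply y
    rwa [hΨ0] at this
  have hH0 : H 0 = F' := by
    ext y
    rw [hH, hΨ0, hΨ0']
  have hfam : IsFam n N r H := by
    intro y
    have e1 : (fun p : V n × N => H p.1 p.2) = fun p => (Ψ p.1).symm (F' (Ψ p.1 p.2)) := by
      funext p
      exact hH _ _
    rw [e1]
    have s1 : ContMDiff ((𝓡 n).prod (𝓡 n)) (𝓡 n) r (fun p : V n × N => Ψ p.1 p.2) :=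
      hΨs.of_le hr'
    have s2 : ContMDiff ((𝓡 n).prod (𝓡 n)) (𝓡 n) r (fun p : V n × N => F' (Ψ p.1 p.2)) :=
      F'.contMDiff.comp s1
    have s3 : ContMDiff ((𝓡 n).prod (𝓡 n)) ((𝓡 n).prod (𝓡 n)) r
        (fun p : V n × N => ((p.1, F' (Ψ p.1 p.2)) : V n × N)) := contMDiff_fst.prodMk s2
    have s4 : ContMDiff ((𝓡 n).prod (𝓡 n)) (𝓡 n) r (fun p : V n × N => (Ψ p.1).symm p.2) :=
      hΨs'.of_le hr'
    exact (s4.comp s3).contMDiffAt
  obtain ⟨κ', hκ', hmem⟩ := fam_mem r hr H hfam z U hU (by rw [hH0]; exact hF'U)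
  have hW : {y : N | y ∈ χ.source ∧ ‖χ y‖ < min κ κ'} ∈ 𝓝 z := by
    have h5 : χ.source ∈ 𝓝 z := χ.open_source.mem_nhds hχ.src
    have h6 : ContinuousAt (fun y => ‖χ y‖) z := (χ.continuousAt hχ.src).norm
    have h7 : ∀ᶠ y in 𝓝 z, ‖χ y‖ < min κ κ' := by
      have h8 : ‖χ z‖ < min κ κ' := by rw [hχ.zero, norm_zero]; exact lt_min hκ hκ'
      exact h6.eventually_lt_const h8
    filter_upwards [h5, h7] with y hy1 hy2
    exact ⟨hy1, hy2⟩
  obtain ⟨y, ⟨hy1, hy2⟩, hy3⟩ := mem_closure_iff_nhds.1 hz _ hW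
  obtain ⟨h1, h2⟩ := hΨt (χ y) (hy2.trans_le (min_le_left _ _)) z hχ.src
    (by rw [hχ.zero, norm_zero]; norm_num)
  have h3 : Ψ (χ y) z = y := by
    apply χ.injOn h1 hy1
    rw [h2, hχ.zero, zero_add]
  have h4 : GoodPt n (H (χ y)) z :=
    conj_good (Ψ (χ y)) F' (H (χ y)) (hH _) z (by rw [h3]; exact hy3)
  exact closable_good r hr (H (χ y)) z h4 U hU (hmem _ (hy2.trans_le (min_le_right _ _)))

end Pool.Agent.X183.PC
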