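import Pool.Agent.X183.PC.Main2

/-!
# Maps which permute the closed orbits of a flow
-/

set_option autoImplicit false
set_option linter.unusedSectionVars false

open scoped Manifold ContDiff Topology
open Filter Set Metric

universe u

namespace Pool.Agent.X183.PC

open Pool.Agent.H718R2.G Pool.Agent.TH290.CL Pool.Agent.TH80.CLX Pool.Agent.TH80.OMS
open Pool.Agent.Y504.CO (Rec IsHyperbolicPer)
open Pool.Agent.Y318.MN (CritInv IsCrit)

variable {n : ℕ} {N : Type u} [TopologicalSpace N] [T2Space N] [CompactSpace N]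
  [ChartedSpace (V n) N] [IsManifold (𝓡 n) ∞ N]

/-- `G` maps the orbits of a smooth flow, all of whose orbits are closed, to orbits, and every orbit
which is recurrent under `G` is periodic under `G`. -/
def PermutesOrbits (n : ℕ) (N : Type u) [TopologicalSpace N] [ChartedSpace (V n) N]
    (G : N → N) : Prop :=
  ∃ ψ : ℝ → N → N, IsFlow n N ψ ∧ (∀ x, ∃ T : ℝ, 0 < T ∧ ψ T x = x) ∧
    (∀ x t, ∃ s, G (ψ t x) = ψ s (G x)) ∧
    ∀ x, (∀ W ∈ 𝓝 x, ∃ k : ℕ, 1 ≤ k ∧ ∃ t, ψ t (G^[k] x) ∈ W) →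
      ∃ k : ℕ, 1 ≤ k ∧ ∃ t, G^[k] x = ψ t x

theorem rec_of_permutes {G : N → N} (h : PermutesOrbits n N G) :
    Rec G ⊆ Per G ∪ CurvePts n G := by
  classical
  obtain ⟨ψ, hψ, hcl, hmap, hrec⟩ := h
  have hmapk : ∀ (k : ℕ) (x : N) (t : ℝ), ∃ s, G^[k] (ψ t x) = ψ s (G^[k] x) := by
    intro k
    induction k with
    | zero => intro x t; exact ⟨t, rfl⟩
    | succ k ih =>
      intro x t
      obtain ⟨s, hs⟩ := ih x t
      obtain ⟨s', hs'⟩ := hmap (G^[k] x) s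
      exact ⟨s', by rw [Function.iterate_succ_apply', hs, hs', Function.iterate_succ_apply']⟩
  intro x hx
  have hex : ∃ k : ℕ, 1 ≤ k ∧ ∃ t, G^[k] x = ψ t x := hrec x fun W hW => by
    obtain ⟨k, hk, hkW⟩ := hx W hW
    exact ⟨k, hk, 0, by rw [hψ.zero]; exact hkW⟩
  by_cases hc : ∀ t, ψ t x = x
  · obtain ⟨k, hk, t, ht⟩ := hex
    exact Or.inl ⟨k, hk, by rw [ht, hc]⟩
  · push Not at hc
    obtain ⟨hk, t₁, ht₁⟩ := Nat.find_spec hex
    have hmin : ∀ i, i < Nat.find hex → ¬ (1 ≤ i ∧ ∃ t, G^[i] x = ψ t x) :=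
      fun i hi => Nat.find_min hex hi
    refine Or.inr ⟨range fun t => ψ t x, ⟨ψ, hψ, x, hcl x, hc, rfl⟩,
      ⟨Nat.find hex, hk, ?_, fun i h1 h2 => ?_⟩, ⟨0, hψ.zero x⟩⟩
    · rintro _ ⟨t, rfl⟩
      obtain ⟨s, hs⟩ := hmapk (Nat.find hex) x t
      refine ⟨s + t₁, ?_⟩
      show ψ (s + t₁) x = G^[Nat.find hex] (ψ t x)
      rw [hs, ht₁, hψ.add]
    · rw [Set.disjoint_left]
      rintro _ ⟨_, ⟨t, rfl⟩, rfl⟩ ⟨s, hs⟩
      simp only at hs
      obtain ⟨s', hs'⟩ := hmapk i x t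
      rw [hs'] at hs
      apply hmin i h2
      refine ⟨h1, -s' + s, ?_⟩
      rw [hψ.add, hs, ← hψ.add, neg_add_cancel, hψ.zero]

theorem curveRec_of_rec {r : ℕ∞} {G : DiffM n N r} (h : Rec G ⊆ Per G ∪ CurvePts n G) :
    CurveRec n N r G := by
  refine ⟨fun _ => 0, contMDiff_const, fun _ => le_rfl, ?_⟩
  have : (CritInv n G (fun _ => 0) ∩ Rec G) \ (Per G ∪ CurvePts n G) = ∅ := by
    rw [sdiff_eq_empty]
    exact fun x hx => h hx.2
  rw [this]
  exact countable_empty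

end Pool.Agent.X183.PC
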